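import Pool.Agent.H31R3.AL.Code

set_option autoImplicit false

/-!
# Locally almost linear structures

The countable-or-perfect dichotomy for the isomorphism types of countable partial orders in which
every point is incomparable to only finitely many points, of tournaments in which every point lies
in only finitely many cyclic triangles, and more generally of binary relations in which every point
is in only finitely many irregular pairs, with countably many further relations that hold only
between points in irregular pairs.
-/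

namespace Pool.Agent.Results.MP_5607ba_lc.AlmostLinear

/-- Structures on `ℕ`: a binary relation `x.1` and relations `x.2 i` of arities `a i`, `i ∈ ℕ`. -/
abbrev Structures (a : ℕ → ℕ) : Type :=
  (ℕ → ℕ → Bool) × ((i : ℕ) → (Fin (a i) → ℕ) → Bool)

/-- `σ` is an isomorphism from `x` to `y`, that is, `y` is the image of `x` under the action of `σ`
(an element of the Polish group of all permutations of `ℕ`). -/
def IsIso {a : ℕ → ℕ} (σ : Equiv.Perm ℕ) (x y : Structures a) : Prop :=
  (∀ m n, y.1 (σ m) (σ n) = x.1 m n) ∧ ∀ i v, y.2 i (⇑σ ∘ v) = x.2 i v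

/-- `x → y` in the binary relation `r`: `r x y` and not `r y x`. -/
def Arrow (r : ℕ → ℕ → Bool) (x y : ℕ) : Prop := r x y = true ∧ r y x = false

/-- The pair of the distinct points `x`, `y` is irregular: neither `x → y` nor `y → x`, or there are
`a → b → c` without `a → c` such that `x` and `y` are among `a`, `b`, `c`. In a strict partial order
this means that `x` and `y` are incomparable, in a tournament that they are in a common cyclic
triangle. -/
def Irregular (r : ℕ → ℕ → Bool) (x y : ℕ) : Prop := x ≠ y ∧ ((¬ Arrow r x y ∧ ¬ Arrow r y x) ∨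
  ∃ a b c, (Arrow r a b ∧ Arrow r b c ∧ ¬ Arrow r a c) ∧ (x = a ∨ x = b ∨ x = c) ∧
    (y = a ∨ y = b ∨ y = c))

/-- Every point is in finitely many irregular pairs, and the further relations hold only for tuples
any two entries of which are equal or form an irregular pair (no condition on unary relations). -/
structure LocallyAlmostLinear {a : ℕ → ℕ} (x : Structures a) : Prop where
  finite : ∀ m, {n | Irregular x.1 m n}.Finite
  inside : ∀ i t, x.2 i t = true → ∀ j k, t j = t k ∨ Irregular x.1 (t j) (t k)

private theorem rel_iff {a : ℕ → ℕ} (σ : Equiv.Perm ℕ) (x y : Structures a) :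
    IsIso σ x y ↔ y = H31R3.AL.rel σ x := by
  constructor
  · rintro ⟨h1, h2⟩
    refine Prod.ext ?_ ?_
    · funext m n
      have h3 := h1 (σ.symm m) (σ.symm n)
      rw [σ.apply_symm_apply, σ.apply_symm_apply] at h3
      exact h3
    · funext i v
      have h3 := h2 i (⇑σ.symm ∘ v)
      have e : ⇑σ ∘ (⇑σ.symm ∘ v) = v := by
        funext j
        exact σ.apply_symm_apply _
      rw [e] at h3
      exact h3
  · rintro rfl
    refine ⟨fun m n => ?_, fun i v => ?_⟩
    · show x.1 (σ.symm (σ m)) (σ.symm (σ n)) = x.1 m n
      rw [σ.symm_apply_apply, σ.symm_apply_apply]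
    · have e : ⇑σ.symm ∘ (⇑σ ∘ v) = v := by
        funext j
        exact σ.symm_apply_apply _
      show x.2 i (⇑σ.symm ∘ (⇑σ ∘ v)) = x.2 i v
      rw [e]

/-- Every isomorphism-invariant Borel class `B` of locally almost linear structures contains
countably many isomorphism types, or there is a continuous map from the Cantor space into `B` with
pairwise non-isomorphic values. -/
theorem result (a : ℕ → ℕ) (B : Set (Structures a)) (hB : MeasurableSet B)
    (hL : ∀ x ∈ B, LocallyAlmostLinear x)
    (hi : ∀ x ∈ B, ∀ (y : Structures a) (σ : Equiv.Perm ℕ), IsIso σ x y → y ∈ B) :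
    (∃ f : ℕ → Structures a, ∀ x ∈ B, ∃ (n : ℕ) (σ : Equiv.Perm ℕ), IsIso σ (f n) x) ∨
    (∃ g : (ℕ → Bool) → Structures a, Continuous g ∧ (∀ c, g c ∈ B) ∧
      ∀ c d, (∃ σ : Equiv.Perm ℕ, IsIso σ (g c) (g d)) → c = d) := by
  rcases H31R3.AL.main B hB (fun x hx => ⟨(hL x hx).finite, (hL x hx).inside⟩)
    (fun x hx σ => hi x hx _ σ ((rel_iff σ x _).2 rfl)) with ⟨f, hf⟩ | ⟨g, hg, hgB, hgi⟩
  · left
    refine ⟨f, fun x hx => ?_⟩
    obtain ⟨n, σ, h⟩ := hf x hx
    exact ⟨n, σ, (rel_iff σ _ _).2 h⟩
  · right
    refine ⟨g, hg, hgB, fun c d h => hgi c d ?_⟩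
    obtain ⟨σ, h⟩ := h
    exact ⟨σ, (rel_iff σ _ _).1 h⟩

end Pool.Agent.Results.MP_5607ba_lc.AlmostLinear
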