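import Pool.Agent.TH686.DO.Rat

set_option autoImplicit false

/-!
# Conjugation of involutions of the rational numbers by order automorphisms

The Polish group `Aut(ℚ, <)` acts by conjugation on the Polish space of the involutions without
fixed points of the set `ℚ`. This single action, even restricted to the involutions that exchange an
initial segment with its complement, is faithfully complete for the isomorphism relations of
countable structures, so that the countable-or-perfect dichotomy for its invariant Borel sets
implies Vaught's conjecture for `L_ω₁ω`, in the perfect-set form.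
-/

namespace Pool.Agent.Results.MP_5607ba_lc.RationalInvolutions

/-- Relational structures on `ℕ` with relations of arities `a 0, a 1, ...`. -/
abbrev Str (a : ℕ → ℕ) : Type := (i : ℕ) → (Fin (a i) → ℕ) → Bool

/-- Isomorphism of structures: the orbit equivalence relation of the infinite symmetric group. -/
def Iso {a : ℕ → ℕ} (x y : Str a) : Prop :=
  ∃ σ : Equiv.Perm ℕ, ∀ (i : ℕ) (v : Fin (a i) → ℕ), y i (⇑σ ∘ v) = x i v

/-- The maps `s` and `t` are conjugate by an order automorphism of `ℚ`: the orbit equivalence
relation of `Aut(ℚ, <)` acting by conjugation. -/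
def Conjugate (s t : ℚ → ℚ) : Prop := ∃ φ : ℚ ≃o ℚ, t = ⇑φ ∘ s ∘ ⇑φ.symm

/-- `s` is an involution without fixed points. -/
def Involution (s : ℚ → ℚ) : Prop := ∀ q, s (s q) = q ∧ s q ≠ q

/-- `s` is an involution without fixed points that exchanges an initial segment with its
complement. -/
def Exchange (s : ℚ → ℚ) : Prop := Involution s ∧ ∀ p q, p < s p → q < s q → p < s q

/-- The countable-or-perfect dichotomy for the `E`-invariant Borel sets of members of `K`. -/
def CountableOrPerfect {X : Type} [TopologicalSpace X] [MeasurableSpace X] (E : X → X → Prop)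
    (K : X → Prop) : Prop :=
  ∀ B : Set X, MeasurableSet B → (∀ x y, E x y → (x ∈ B ↔ y ∈ B)) → (∀ x ∈ B, K x) →
    (∃ f : ℕ → X, ∀ x ∈ B, ∃ n, E (f n) x) ∨
    (∃ g : (ℕ → Bool) → X, Measurable g ∧ (∀ c, g c ∈ B) ∧ ∀ c d, E (g c) (g d) → c = d)

/-- `K` is faithfully complete: for every invariant Borel class `B` of structures (in any countable
relational language) there are an invariant Borel class `B'` of members of `K` and a Borel map `F`
from `B'` to `B` that induces a bijection of the isomorphism types. -/
def FaithfullyComplete {Y : Type} [MeasurableSpace Y] (E : Y → Y → Prop) (K : Y → Prop) : Prop :=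
  ∀ (a : ℕ → ℕ) (B : Set (Str a)), MeasurableSet B → (∀ x y, Iso x y → (x ∈ B ↔ y ∈ B)) →
    ∃ (B' : Set Y) (F : Y → Str a), MeasurableSet B' ∧ (∀ y z, E y z → (y ∈ B' ↔ z ∈ B')) ∧
      (∀ y ∈ B', K y) ∧ Measurable F ∧ (∀ y ∈ B', F y ∈ B) ∧
      (∀ y ∈ B', ∀ z ∈ B', E y z ↔ Iso (F y) (F z)) ∧ ∀ x ∈ B, ∃ y ∈ B', Iso x (F y)

private theorem conj_iff (s t : ℚ → ℚ) : Conjugate s t ↔ TH686.DO.Cj s t := by
  constructor
  · rintro ⟨φ, rfl⟩
    refine ⟨φ, fun q => ?_⟩
    simp
  · rintro ⟨φ, h⟩
    refine ⟨φ, funext fun q => ?_⟩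
    have := h (φ.symm q)
    simp only [OrderIso.apply_symm_apply] at this
    simpa using this

/-- The action of `Aut(ℚ, <)` by conjugation on the fixed-point-free involutions of `ℚ` that
exchange an initial segment with its complement is faithfully complete. So the
countable-or-perfect dichotomy for its invariant Borel sets implies the dichotomy for all
isomorphism-invariant Borel classes of countable structures in countable relational languages. -/
theorem result :
    FaithfullyComplete Conjugate Exchange ∧
    (CountableOrPerfect Conjugate Exchange →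
      ∀ a : ℕ → ℕ, CountableOrPerfect (Iso (a := a)) (fun _ => True)) := by
  have e1 : Conjugate = TH686.DO.Cj := funext fun s => funext fun t => propext (conj_iff s t)
  have e2 : ∀ s, TH686.DO.XI s → Exchange s := fun s h => ⟨fun q => ⟨h.inv q, h.ne q⟩, h.cut⟩
  have key : W889.VC.Faithful Conjugate Exchange := by
    rw [e1]
    exact TH686.DO.faithful_XI.mono e2
  refine ⟨key, fun h a B hB hinv _ => ?_⟩
  obtain ⟨B', F, h1, h2, h3, h4, h5, h6, h7⟩ := key a B hB hinv
  rcases h B' h1 h2 h3 with ⟨f, hf⟩ | ⟨g, k1, k2, k3⟩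
  · left
    refine ⟨fun n => F (f n), fun x hx => ?_⟩
    obtain ⟨y, hy, hxy⟩ := h7 x hx
    obtain ⟨n, hn⟩ := hf y hy
    have hn' : f n ∈ B' := (h2 _ _ hn).2 hy
    have h8 : W889.VC.Iso (F (f n)) (F y) := (h6 _ hn' _ hy).1 hn
    have h9 : W889.VC.Iso x (F y) := hxy
    exact ⟨n, h8.trans h9.symm⟩
  · right
    exact ⟨fun c => F (g c), h4.comp k1, fun c => h5 _ (k2 c), fun c d hcd =>
      k3 c d ((h6 _ (k2 c) _ (k2 d)).2 hcd)⟩

end Pool.Agent.Results.MP_5607ba_lc.RationalInvolutions
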