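import Pool.Agent.R529.AM.Defs

/-!
# Structures whose pieces over finitely many elements can be repeated infinitely often

Let `Sym(ℕ)` act on the countable structures in a countable relational language, with relations of
arbitrary arities, and let `B` be an arbitrary invariant Borel set. Remove finitely many elements
`F` from a structure, but remember their relations with the other elements; the structure falls
into pieces, and it is the free amalgam of these pieces over `F`. We prove the
countable-or-perfect dichotomy for the orbits in `B` of the structures for which, for a suitable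
finite set `F`, every piece is a piece of a structure `d` such that the free amalgam over `F` of
infinitely many copies of `d` belongs to `B` (where `d` may depend on the piece).

In particular, this holds for the members `x` of `B` such that the free amalgam of infinitely many
copies of `x` over some finite set belongs to `B`. For the empty finite set and structures which
are isomorphic to this amalgam this is the starting result `MP_4d1b73_lc.SelfPowers`.

The proof uses the starting files `Pool.Agent.H579R3.VP` (the dichotomy for `F = ∅`) and
`Pool.Agent.H579R3.VR` (elimination of finitely many named elements).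
-/

set_option autoImplicit false

namespace Pool.Agent.Results.MP_5607ba_lc.RepeatablePieces

open Set MeasureTheory Pool.Agent.H623R2.VE Pool.Agent.H579R3.VP Pool.Agent.H579R3.VR
open Pool.Agent.R529.AM

/-- The structures `x` which are isomorphic to a structure `y` such that for some `n` every piece
of `y` over the first `n` elements is isomorphic, over the first `n` elements, to a piece of a
structure `d` for which the free amalgam of infinitely many copies of `d` over the first `n`
elements belongs to `B`. -/
def Repeatable {a : ℕ → ℕ} (B : Set (Str a)) : Set (Str a) :=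
  {x | ∃ (n : ℕ) (y : Str a), Iso x y ∧ ∀ u, n ≤ u →
    ∃ (d : Str a) (v : ℕ), copies n d ∈ B ∧ n ≤ v ∧ SamePiece n y u d v}

/-- the members of `B` in `Repeatable B` in terms of structures with named elements -/
theorem mem_iff {a : ℕ → ℕ} {B : Set (Str a)}
    (hi : ∀ x y : Str a, Iso x y → x ∈ B → y ∈ B) (x : Str a) :
    (x ∈ B ∧ x ∈ Repeatable B) ↔ ∃ n, ∃ c ∈ {c : Code (ar a n) |
      c ∈ (back ⁻¹' B : Set (Code (ar a n))) ∧ ∀ b, Mlt (back ⁻¹' B) c b},
      GIso (toI x) (toI (back c)) := by
  constructor
  · rintro ⟨hx, n, y, hxy, h⟩
    refine ⟨n, rest n y, ⟨?_, fun b => ?_⟩, ?_⟩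
    · show back (rest n y) ∈ B
      rw [back_rest]
      exact hi _ _ hxy hx
    · obtain ⟨d, v, hd, hv, hs⟩ := h (n + b) (Nat.le_add_right _ _)
      refine ⟨rest n d, ?_, v - n, ?_⟩
      · show back (pwc (rest n d)) ∈ B
        rw [back_pwc, back_rest]
        exact hd
      · rw [← Nat.add_sub_cancel' hv] at hs
        exact (samePiece_iff _ _ _ _).1 hs
    · rw [back_rest]
      exact iso_iff.1 hxy
  · rintro ⟨n, c, ⟨hc, hm⟩, hx⟩
    have hxy : Iso x (back c) := iso_iff.2 hx
    refine ⟨hi _ _ (iso_iff.2 hx.symm) hc, n, back c, hxy, fun u hu => ?_⟩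
    obtain ⟨d, hd, b, hb⟩ := hm (u - n)
    refine ⟨back d, n + b, ?_, Nat.le_add_right _ _, ?_⟩
    · rw [← back_pwc]
      exact hd
    · rw [← Nat.add_sub_cancel' hu, samePiece_iff, rest_back, rest_back]
      exact hb

/-- **Theorem.** Let `B` be an isomorphism-invariant Borel set of countable structures in a
countable relational language.

(1) Up to isomorphism, `B ∩ Repeatable B` has only countably many members, or there is a
continuous map from the Cantor space into `B ∩ Repeatable B` with pairwise non-isomorphic values.

(2) `Repeatable B` contains every structure `x` such that, for some finite set `F` of its elements,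
the free amalgam of infinitely many copies of `x` over `F` belongs to `B`. -/
theorem result (a : ℕ → ℕ) (B : Set (Str a)) (hB : MeasurableSet B)
    (hi : ∀ x y : Str a, Iso x y → x ∈ B → y ∈ B) :
    ((∃ S : Set (Str a), S.Countable ∧ ∀ x ∈ B, x ∈ Repeatable B → ∃ x' ∈ S, Iso x x') ∨
      ∃ f : (ℕ → Bool) → Str a, Continuous f ∧ (∀ s, f s ∈ B ∧ f s ∈ Repeatable B) ∧
        ∀ s s', Iso (f s) (f s') → s = s') ∧
    (∀ (x y : Str a) (n : ℕ), Iso x y → copies n y ∈ B → x ∈ Repeatable B) := by
  refine ⟨?_, ?_⟩
  · rcases transfer (fun n => {c : Code (ar a n) | c ∈ (back ⁻¹' B : Set (Code (ar a n))) ∧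
        ∀ b, Mlt (back ⁻¹' B) c b}) (fun n => dich_mlt (continuous_back.measurable hB)
          (fun c c' h hc => hi _ _ (iso_iff.2 (giso_back h)) hc)) with
      ⟨S, hS, h⟩ | ⟨n, f, hf1, hf2, hf3⟩
    · left
      refine ⟨S, hS, fun x hx hr => ?_⟩
      obtain ⟨x', hx', e⟩ := h x ((mem_iff hi x).1 ⟨hx, hr⟩)
      exact ⟨x', hx', iso_iff.2 e⟩
    · right
      refine ⟨fun s => back (f s), continuous_back.comp hf1, fun s => ?_, fun s s' h =>
        hf3 s s' (iso_iff.1 h)⟩
      exact (mem_iff hi _).2 ⟨n, f s, hf2 s, GIso.refl _⟩
  · intro x y n hxy h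
    refine ⟨n, y, hxy, fun u hu => ⟨y, u, h, hu, fun w => w, ?_,
      fun _ _ => rfl, fun _ _ _ => rfl⟩⟩
    exact bijOn_id _

end Pool.Agent.Results.MP_5607ba_lc.RepeatablePieces
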